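import Pool.Agent.H599R2.OW.Main

/-!
# Quantified blocks of bits in front of leaves of small approximate degree; majority
-/

namespace H599.MJ

open H599.OW
open Pool.Agent.H564R2.QF (Fml)

/-- The quantifiers over blocks of bits: there is, for all, and the number of blocks with the
property is congruent to `r` modulo 3. -/
inductive Qu
  | ex : Qu
  | all : Qu
  | mod : ZMod 3 → Qu

/-- Meaning of the quantifiers. -/
def Qu.says {Y : Type} (P : Y → Prop) : Qu → Prop
  | .ex => ∃ y, P y
  | .all => ∀ y, P y
  | .mod r => (Nat.card {y : Y // P y} : ZMod 3) = r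

/-- Predicates of `n` bits given by a sequence of quantified blocks of `m` bits each in front of a
leaf: a function of the `n` input bits and all quantified bits which has approximate degree at
most `D` or is given by a De Morgan formula with at most `D ^ 2` leaves. -/
def Lev (D m : ℕ) : List Qu → (n : ℕ) → Set ((Fin n → Bool) → Prop)
  | [], n => {f | ∃ g ∈ Leaf n D, ∀ x, f x ↔ g x = true}
  | q :: qs, n => {f | ∃ g ∈ Lev D m qs (n + m),
      ∀ x, f x ↔ q.says fun y : Fin m → Bool => g (Fin.append x y)}

/-- Predicates of `n` bits defined in the `PP` way with `b` random bits and De Morgan formulas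
with at most `s` leaves: more than half of the `y` make the formula true. -/
def PPForm (b s n : ℕ) : Set ((Fin n → Bool) → Prop) :=
  {f | ∃ φ : Fml (Fin (n + b)), φ.size ≤ s ∧
    ∀ x, f x ↔ 2 ^ b < 2 * Nat.card {y : Fin b → Bool // φ.eval (Fin.append x y) = true}}

/-- More than half of the bits are ones. -/
def Maj (n : ℕ) (x : Fin n → Bool) : Prop :=
  n < 2 * (Finset.univ.filter fun i => x i = true).card

end H599.MJ
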