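import Pool.Agent.H599R2.MJ.Par

/-!
# Majority needs many quantified bits
-/

namespace H599.MJ

open Finset H599.QB H599.PH H599.OW
open Pool.Agent.H564R2.QF (Fml)

theorem zmod_cases (a : ZMod 3) (c : ℕ) : (a + ((c % 2 : ℕ) : ZMod 3) = a + 1) ↔ Odd c := by
  rcases Nat.mod_two_eq_zero_or_one c with h | h
  · rw [h]
    constructor
    · intro h1
      have h2 := add_left_cancel h1
      exact absurd h2 (by decide)
    · intro h1
      rw [Nat.odd_iff] at h1
      omega
  · rw [h]
    simp [Nat.odd_iff, h]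

/-- Explicit form of the lower bound. -/
theorem maj_lower {n l D m h : ℕ} (qs : List Qu) (hl1 : 1 ≤ l) (hln : 2 * l ≤ n) (hD : 1 ≤ D)
    (hh : 2 ≤ h) (hw : l * 2 ^ (m * qs.length) ≤ 2 ^ h)
    (hl : 54 * 10 ^ 6 * D * 4 ^ 2 * h ^ 2 * (8 * (h + (qs.length + 1))) ^ (2 * (qs.length + 1)) ≤ l) :
    Maj n ∉ Lev D m qs n := by
  classical
  intro hmem
  choose F hF i hi using fun j : Fin l =>
    Lev.circ hD qs hmem (padd l n (l + (n / 2 - j.1))) (padd_coord _)
  obtain ⟨G, hG, hG'⟩ := Circ.top hF i (fun j : Fin l => decide (j.1 % 2 = 0))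
    (.mod ((l / 2 : ℕ) + 1))
  obtain ⟨F0, hF0, hG0⟩ := circ_leaves hG
  have h4 : (4 : ℕ) ≤ 2 ^ h := by
    calc 4 = 2 ^ 2 := rfl
      _ ≤ _ := Nat.pow_le_pow_right (by norm_num) hh
  have hpar : ∀ x : Fin l → Bool, G ⟨0, by positivity⟩ x = true ↔ OddPar l x := by
    intro x
    rw [hG']
    change (Nat.card _ : ZMod 3) = _ ↔ _
    set c := (Finset.univ.filter fun i => x i = true).card with hc
    have hcl : c ≤ l := by
      have := Finset.card_filter_le (Finset.univ : Finset (Fin l)) fun i => x i = true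
      rwa [Finset.card_univ, Fintype.card_fin] at this
    have e : Nat.card {a : Fin l // F a (i a) x = decide (a.1 % 2 = 0)} = l / 2 + c % 2 := by
      rw [Nat.card_eq_fintype_card, Fintype.card_subtype, ← count_mod l c hcl]
      congr 1
      refine Finset.filter_congr fun a _ => ?_
      have h1 : F a (i a) x = true ↔ a.1 < c := by
        rw [hi, maj_padd hln a.2.le]
      by_cases h2 : a.1 < c
      · have h3 := h1.2 h2
        rw [h3]
        simp [h2]
      · have h3 : F a (i a) x = false := by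
          rw [← Bool.not_eq_true, h1]; exact h2
        rw [h3]
        simp [h2]
    rw [e, Nat.cast_add]
    exact zmod_cases _ _
  have hfin := parity_avg (k := qs.length + 1) (g := 4) (by omega) (by norm_num) h4 hD hw hl
    hF0 hG0 ⟨0, by positivity⟩
  have e1 : (Finset.univ.filter fun x : Fin l → Bool =>
      G ⟨0, by positivity⟩ x = true ↔ OddPar l x) = Finset.univ :=
    Finset.filter_true_of_mem fun x _ => hpar x
  rw [e1, Finset.card_univ, Fintype.card_fun, Fintype.card_bool, Fintype.card_fin] at hfin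
  push_cast at hfin
  have hpos : (0 : ℝ) < 2 ^ l := by positivity
  nlinarith

end H599.MJ
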