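import Pool.Agent.H599R2.MJ.Defs
import Pool.Agent.H599R2.OW.Sat

/-!
# Quantified blocks are circuits; parity from majority
-/

namespace H599.MJ

open Finset H599.QB H599.PH H599.OW
open Pool.Agent.H564R2.QF (Fml)

/-- circuits side by side -/
theorem Circ.par {X : Type} {L : Set (X → Bool)} {w J k : ℕ} {F : Fin J → Fin w → X → Bool}
    (hF : ∀ a, F a ∈ Circ L w k) :
    ∃ G ∈ Circ L (J * w) k, ∀ a i, G (finProdFinEquiv (a, i)) = F a i := by
  classical
  induction k generalizing F with
  | zero =>
    refine ⟨fun p => F (finProdFinEquiv.symm p).1 (finProdFinEquiv.symm p).2,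
      fun p => hF _ _, fun a i => ?_⟩
    beta_reduce
    rw [Equiv.symm_apply_apply]
  | succ k ih =>
    choose F' hF' hg using hF
    obtain ⟨G, hG, hG'⟩ := ih hF'
    have key : ∀ a i, Gate G (F a i) := by
      intro a i
      obtain ⟨S, hS⟩ := hg a i
      set φ : Fin w × Bool → Fin (J * w) × Bool := fun c => (finProdFinEquiv (a, c.1), c.2) with hφ
      have hval : ∀ c x, G (φ c).1 x = F' a c.1 x := by
        intro c x
        rw [hφ]; beta_reduce; rw [hG']
      have hval2 : ∀ c, (φ c).2 = c.2 := fun c => rfl
      have hinj : Function.Injective φ := by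
        rintro c c' h
        have h0 := Prod.mk.inj h
        have h1 := Prod.mk.inj (finProdFinEquiv.injective h0.1)
        exact Prod.ext h1.2 h0.2
      refine ⟨S.image φ, ?_⟩
      rcases hS with h | h | ⟨r, h⟩
      · refine Or.inl fun x => ?_
        rw [h x, Finset.forall_mem_image]
        refine forall₂_congr fun c _ => ?_
        rw [hval, hval2]
      · refine Or.inr (Or.inl fun x => ?_)
        rw [h x]
        constructor
        · rintro ⟨c, hc, hc'⟩
          refine ⟨φ c, Finset.mem_image_of_mem _ hc, ?_⟩
          rw [hval, hval2]; exact hc'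
        · rintro ⟨c, hc, hc'⟩
          obtain ⟨d, hd, rfl⟩ := Finset.mem_image.1 hc
          rw [hval, hval2] at hc'
          exact ⟨d, hd, hc'⟩
      · refine Or.inr (Or.inr ⟨r, fun x => ?_⟩)
        rw [h x, Finset.filter_image, Finset.card_image_of_injective _ hinj]
        have e : (S.filter fun c => G (φ c).1 x = (φ c).2)
            = S.filter fun c => F' a c.1 x = c.2 := by
          refine Finset.filter_congr fun c _ => ?_
          rw [hval, hval2]
        rw [e]
    refine ⟨fun p => F (finProdFinEquiv.symm p).1 (finProdFinEquiv.symm p).2,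
      ⟨G, hG, fun p => key _ _⟩, fun a i => ?_⟩
    beta_reduce
    rw [Equiv.symm_apply_apply]

/-- one more gate over chosen outputs of circuits side by side -/
theorem Circ.top {X : Type} {L : Set (X → Bool)} {w J k : ℕ} {F : Fin J → Fin w → X → Bool}
    (hF : ∀ a, F a ∈ Circ L w k) (i : Fin J → Fin w) (sgn : Fin J → Bool) (q : Qu) :
    ∃ G ∈ Circ L (J * w) (k + 1), ∀ p x, G p x = true ↔
      q.says fun a => F a (i a) x = sgn a := by
  classical
  obtain ⟨G, hG, hG'⟩ := Circ.par hF
  set ψ : Fin J → Fin (J * w) × Bool := fun a => (finProdFinEquiv (a, i a), sgn a) with hψ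
  have hinj : Function.Injective ψ := by
    intro a b h
    rw [hψ, Prod.mk.injEq] at h
    exact congrArg Prod.fst (finProdFinEquiv.injective h.1)
  refine ⟨fun _ x => decide (q.says fun a => F a (i a) x = sgn a), ⟨G, hG, fun _ =>
    ⟨Finset.univ.image ψ, ?_⟩⟩, fun p x => by simp⟩
  have hval : ∀ a x, (G (ψ a).1 x = (ψ a).2) ↔ F a (i a) x = sgn a := by
    intro a x
    rw [hψ]; beta_reduce; rw [hG']
  cases q with
  | ex =>
    refine Or.inr (Or.inl fun x => ?_)
    rw [decide_eq_true_iff]
    constructor
    · rintro ⟨a, ha⟩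
      exact ⟨ψ a, Finset.mem_image_of_mem _ (Finset.mem_univ _), (hval a x).2 ha⟩
    · rintro ⟨c, hc, hc'⟩
      obtain ⟨a, _, rfl⟩ := Finset.mem_image.1 hc
      exact ⟨a, (hval a x).1 hc'⟩
  | all =>
    refine Or.inl fun x => ?_
    rw [decide_eq_true_iff, Finset.forall_mem_image]
    constructor
    · intro h a _
      exact (hval a x).2 (h a)
    · intro h a
      exact (hval a x).1 (h (Finset.mem_univ a))
  | mod r =>
    refine Or.inr (Or.inr ⟨r, fun x => ?_⟩)
    rw [decide_eq_true_iff, Finset.filter_image, Finset.card_image_of_injective _ hinj]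
    change (Nat.card _ : ZMod 3) = r ↔ _
    rw [Nat.card_eq_fintype_card, Fintype.card_subtype]
    have e : (Finset.univ.filter fun a => F a (i a) x = sgn a)
        = Finset.univ.filter fun a => G (ψ a).1 x = (ψ a).2 :=
      Finset.filter_congr fun a _ => (hval a x).symm
    rw [e]

theorem Qu.says_congr {Y Z : Type} (e : Y ≃ Z) {P : Y → Prop} {Q : Z → Prop}
    (h : ∀ y, P y ↔ Q (e y)) (q : Qu) : q.says P ↔ q.says Q := by
  cases q with
  | ex =>
    constructor
    · rintro ⟨y, hy⟩
      exact ⟨e y, (h y).1 hy⟩
    · rintro ⟨z, hz⟩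
      refine ⟨e.symm z, (h _).2 ?_⟩
      rw [e.apply_symm_apply]; exact hz
  | all =>
    constructor
    · intro hP z
      have := (h (e.symm z)).1 (hP _)
      rwa [e.apply_symm_apply] at this
    · intro hQ y
      exact (h y).2 (hQ _)
  | mod r =>
    change (Nat.card _ : ZMod 3) = r ↔ (Nat.card _ : ZMod 3) = r
    rw [Nat.card_congr (e.subtypeEquiv h)]

theorem leaf_app {l D : ℕ} (hD : 1 ≤ D) {g : (Fin l → Bool) → Bool} (hg : g ∈ Leaf l D) :
    App D g := fun j => Leaf.approx hD hg j

/-- Quantified blocks give circuits. -/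
theorem Lev.circ {D m : ℕ} (hD : 1 ≤ D) (qs : List Qu) : ∀ {n : ℕ} {f : (Fin n → Bool) → Prop},
    f ∈ Lev D m qs n → ∀ {l : ℕ} (τ : (Fin l → Bool) → (Fin n → Bool)), CoordV τ →
      ∃ F ∈ Circ {g : (Fin l → Bool) → Bool | App D g} (2 ^ (m * qs.length)) qs.length,
        ∃ i, ∀ z, F i z = true ↔ f (τ z) := by
  induction qs with
  | nil =>
    rintro n f ⟨g, hg, hf⟩ l τ hτ
    refine ⟨fun _ z => g (τ z), fun _ => (leaf_app hD hg).comp hτ, ⟨0, by simp⟩, fun z => ?_⟩
    rw [hf]
  | cons q qs ih =>
    rintro n f ⟨g, hg, hf⟩ l τ hτ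
    have hτ' : ∀ y : Fin m → Bool,
        CoordV fun z : Fin l → Bool => (Fin.append (τ z) y : Fin (n + m) → Bool) := by
      intro y v
      refine Fin.addCases (fun v => ?_) (fun v => ?_) v
      · have e : (fun z : Fin l → Bool => sg (Fin.append (τ z) y (Fin.castAdd m v)))
            = fun z => sg (τ z v) := by
          funext z; rw [Fin.append_left]
        rw [e]; exact hτ v
      · have e : (fun z : Fin l → Bool => sg (Fin.append (τ z) y (Fin.natAdd n v)))
            = fun _ => sg (y v) := by
          funext z; rw [Fin.append_right]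
        rw [e]; exact const_mem _ _
    set E : (Fin m → Bool) ≃ Fin (2 ^ m) :=
      (Fintype.equivFin (Fin m → Bool)).trans (finCongr (by simp)) with hE
    choose F hF i hi using fun a : Fin (2 ^ m) => ih hg _ (hτ' (E.symm a))
    obtain ⟨G, hG, hG'⟩ := Circ.top hF i (fun _ => true) q
    have hw : 2 ^ m * 2 ^ (m * qs.length) = 2 ^ (m * (q :: qs).length) := by
      rw [List.length_cons, ← pow_add]; congr 1; ring
    rw [List.length_cons] at hw ⊢
    rw [← hw]
    refine ⟨G, hG, ⟨0, by positivity⟩, fun z => ?_⟩
    rw [hG', hf]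
    refine (Qu.says_congr E (fun y => ?_) q).symm
    rw [hi, E.symm_apply_apply]

section maj

variable {l n : ℕ}

/-- padding: `l` free bits followed by ones up to position `c` -/
def padd (l n c : ℕ) (x : Fin l → Bool) : Fin n → Bool := fun p =>
  if h : p.1 < l then x ⟨p.1, h⟩ else decide (p.1 < c)

theorem padd_coord (c : ℕ) : CoordV (padd l n c) := by
  intro p
  by_cases h : p.1 < l
  · have e : (fun z : Fin l → Bool => sg (padd l n c z p)) = chi {⟨p.1, h⟩} := by
      funext z; simp [chi, padd, h]
    rw [e]
    exact chi_mem (by simp)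
  · have e : (fun z : Fin l → Bool => sg (padd l n c z p)) = fun _ => sg (decide (p.1 < c)) := by
      funext z; simp [padd, h]
    rw [e]
    exact const_mem _ _

theorem padd_card {c : ℕ} (h1 : l ≤ c) (h2 : c ≤ n) (x : Fin l → Bool) :
    (Finset.univ.filter fun p => padd l n c x p = true).card
      = (Finset.univ.filter fun i => x i = true).card + (c - l) := by
  classical
  have hln : l ≤ n := h1.trans h2
  have e : (Finset.univ.filter fun p => padd l n c x p = true)
      = (Finset.univ.filter fun i => x i = true).map (Fin.castLEEmb hln) ∪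
        Finset.univ.filter fun p : Fin n => l ≤ p.1 ∧ p.1 < c := by
    ext p
    simp only [Finset.mem_filter, Finset.mem_univ, true_and, Finset.mem_union, Finset.mem_map]
    by_cases h : p.1 < l
    · unfold padd
      rw [dif_pos h]
      constructor
      · intro hp
        exact Or.inl ⟨⟨p.1, h⟩, hp, rfl⟩
      · rintro (⟨i, hi, hip⟩ | ⟨h3, _⟩)
        · have : i = ⟨p.1, h⟩ := by
            apply Fin.ext
            have := congrArg Fin.val hip
            simpa using this
          rw [← this]; exact hi
        · omega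
    · unfold padd
      rw [dif_neg h, decide_eq_true_iff]
      constructor
      · intro hp
        exact Or.inr ⟨by omega, hp⟩
      · rintro (⟨i, hi, hip⟩ | ⟨_, h4⟩)
        · exfalso
          have := congrArg Fin.val hip
          simp only [Fin.castLEEmb_apply, Fin.val_castLE] at this
          omega
        · exact h4
  rw [e, Finset.card_union_of_disjoint, Finset.card_map]
  · congr 1
    have : (Finset.univ.filter fun p : Fin n => l ≤ p.1 ∧ p.1 < c).card
        = (Finset.Ico l c).card := by
      refine Finset.card_bij (fun p _ => p.1) ?_ ?_ ?_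
      · intro p hp
        exact Finset.mem_Ico.2 (Finset.mem_filter.1 hp).2
      · intro p _ q _ h
        exact Fin.ext h
      · intro v hv
        have hv := Finset.mem_Ico.1 hv
        exact ⟨⟨v, by omega⟩, Finset.mem_filter.2 ⟨Finset.mem_univ _, hv⟩, rfl⟩
    rw [this, Nat.card_Ico]
  · rw [Finset.disjoint_left]
    intro p hp hp'
    obtain ⟨i, _, rfl⟩ := Finset.mem_map.1 hp
    have := (Finset.mem_filter.1 hp').2.1
    simp only [Fin.castLEEmb_apply, Fin.val_castLE] at this
    omega

theorem maj_padd {j : ℕ} (hl : 2 * l ≤ n) (hj : j ≤ l) (x : Fin l → Bool) :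
    Maj n (padd l n (l + (n / 2 - j)) x) ↔
      j < (Finset.univ.filter fun i => x i = true).card := by
  unfold Maj
  rw [padd_card (by omega) (by omega)]
  omega

theorem count_mod (l c : ℕ) (hc : c ≤ l) :
    (Finset.univ.filter fun j : Fin l => (j.1 < c) = decide (j.1 % 2 = 0)).card
      = l / 2 + c % 2 := by
  classical
  have h : ∀ l c, c ≤ l → ((Finset.range l).filter fun j => (j < c) = decide (j % 2 = 0)).card
      = l / 2 + c % 2 := by
    intro l
    induction l with
    | zero => intro c hc; simp; omega
    | succ l ih =>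
      intro c hc
      rw [Finset.range_add_one, Finset.filter_insert]
      rcases Nat.lt_or_ge c (l + 1) with h1 | h1
      · have ih' := ih c (by omega)
        have h2 : ¬ l < c := by omega
        by_cases h3 : l % 2 = 0
        · rw [if_neg (by simp [h2, h3]), ih']
          omega
        · rw [if_pos (by simp [h2, h3]), Finset.card_insert_of_notMem (by simp), ih']
          omega
      · have hcl : c = l + 1 := by omega
        subst hcl
        have h4 : (Finset.range l).filter (fun j => (j < l + 1) = decide (j % 2 = 0))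
            = (Finset.range l).filter (fun j => (j < l) = decide (j % 2 = 0)) := by
          refine Finset.filter_congr fun j hj => ?_
          have := Finset.mem_range.1 hj
          have h5 : j < l + 1 := by omega
          simp [this, h5]
        rw [h4]
        have ih' := ih l le_rfl
        by_cases h3 : l % 2 = 0
        · rw [if_pos (by simp [h3]), Finset.card_insert_of_notMem (by simp), ih']
          omega
        · rw [if_neg (by simp [h3]), ih']
          omega
  rw [← h l c hc]
  refine Finset.card_bij (fun p _ => p.1) ?_ ?_ ?_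
  · intro p hp
    exact Finset.mem_filter.2 ⟨Finset.mem_range.2 p.2, (Finset.mem_filter.1 hp).2⟩
  · intro p _ q _ h
    exact Fin.ext h
  · intro v hv
    have hv := Finset.mem_filter.1 hv
    exact ⟨⟨v, Finset.mem_range.1 hv.1⟩, Finset.mem_filter.2 ⟨Finset.mem_univ _, hv.2⟩, rfl⟩

end maj

end H599.MJ
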