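import Pool.Agent.H599R2.MJ.Defs

/-!
# Majority has linear-size formulas with logarithmically many random bits
-/

namespace H599.MJ

open Finset H599.OW
open Pool.Agent.H564R2.QF (Fml)

/-- selection by the bits at the positions `v` -/
theorem mux {V : Type} (b : ℕ) : ∀ (v : Fin b → V) (f : (Fin b → Bool) → Fml V),
    (∀ y, (f y).size ≤ 1) →
    ∃ φ : Fml V, φ.size + 2 ≤ 3 * 2 ^ b ∧ ∀ x, φ.eval x = (f fun i => x (v i)).eval x := by
  induction b with
  | zero =>
    intro v f hf
    refine ⟨f fun i => i.elim0, by have := hf fun i => i.elim0; omega, fun x => ?_⟩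
    congr 2
    funext i
    exact i.elim0
  | succ b ih =>
    intro v f hf
    obtain ⟨φ1, h1, e1⟩ := ih (fun i => v i.succ) (fun y => f (Fin.cons true y)) fun y => hf _
    obtain ⟨φ0, h0, e0⟩ := ih (fun i => v i.succ) (fun y => f (Fin.cons false y)) fun y => hf _
    refine ⟨.or (.and (.var (v 0)) φ1) (.and (.neg (.var (v 0))) φ0), ?_, fun x => ?_⟩
    · change (1 + φ1.size) + (1 + φ0.size) + 2 ≤ _
      rw [pow_succ]; omega
    · change ((x (v 0) && φ1.eval x) || (!(x (v 0)) && φ0.eval x)) = _
      rw [e1, e0]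
      have hc : ∀ c, x (v 0) = c → (fun i => x (v i)) = (Fin.cons c fun i => x (v i.succ)
          : Fin (b + 1) → Bool) := by
        intro c hc
        funext i
        refine Fin.cases ?_ (fun i => ?_) i
        · rw [Fin.cons_zero]; exact hc
        · rw [Fin.cons_succ]
      cases h : x (v 0)
      · rw [hc false h]; simp
      · rw [hc true h]; simp

theorem count_pad (n N : ℕ) (h : n ≤ N) :
    ((Finset.Ico n N).filter fun v => v % 2 = n % 2).card = (N - n + 1) / 2 := by
  induction N, h using Nat.le_induction with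
  | base => simp
  | succ N hN ih =>
    rw [← Finset.insert_Ico_right_eq_Ico_add_one hN, Finset.filter_insert]
    by_cases h : N % 2 = n % 2
    · rw [if_pos h, Finset.card_insert_of_notMem (by simp), ih]
      omega
    · rw [if_neg h, ih]
      omega

/-- Majority in the `PP` way. -/
theorem maj_pp (n : ℕ) (hn : 1 ≤ n) : Maj n ∈ PPForm (Nat.clog 2 n) (6 * n) n := by
  classical
  set b := Nat.clog 2 n with hb
  have hnb : n ≤ 2 ^ b := Nat.le_pow_clog (by norm_num) n
  have hbn : 2 ^ b < 2 * n := by
    rcases Nat.lt_or_ge 1 n with h | h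
    · have h1 : 1 ≤ b := Nat.clog_pos (by norm_num) h
      have h2 : 2 ^ (b - 1) < n := (Nat.lt_clog_iff_pow_lt (by norm_num)).1 (by omega)
      calc 2 ^ b = 2 * 2 ^ (b - 1) := by rw [← pow_succ']; congr 1; omega
        _ < 2 * n := by omega
    · have : n = 1 := by omega
      rw [hb, this]; simp
  set E : (Fin b → Bool) ≃ Fin (2 ^ b) :=
    (Fintype.equivFin (Fin b → Bool)).trans (finCongr (by simp)) with hE
  set leaf : ℕ → Fml (Fin (n + b)) := fun v =>
    if h : v < n then .var (Fin.castAdd b ⟨v, h⟩) else .const (decide (v % 2 = n % 2)) with hleaf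
  obtain ⟨φ, h1, h2⟩ := mux b (fun i => Fin.natAdd n i) (fun y => leaf (E y).1) (by
    intro y
    rw [hleaf]
    beta_reduce
    split_ifs
    · exact le_rfl
    · exact Nat.zero_le _)
  refine ⟨φ, by omega, fun x => ?_⟩
  have hev : ∀ y, φ.eval (Fin.append x y) = true ↔
      (if h : (E y).1 < n then x ⟨(E y).1, h⟩ else decide ((E y).1 % 2 = n % 2)) = true := by
    intro y
    rw [h2]
    have e : (fun i => Fin.append x y (Fin.natAdd n i)) = y := by
      funext i; rw [Fin.append_right]
    rw [e, hleaf]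
    beta_reduce
    split_ifs with h
    · change Fin.append x y (Fin.castAdd b _) = true ↔ _
      rw [Fin.append_left]
    · exact Iff.rfl
  have hcard : Nat.card {y : Fin b → Bool // φ.eval (Fin.append x y) = true}
      = (Finset.univ.filter fun i => x i = true).card + (2 ^ b - n + 1) / 2 := by
    have e1 : Nat.card {y : Fin b → Bool // φ.eval (Fin.append x y) = true}
        = Nat.card {v : Fin (2 ^ b) //
            (if h : v.1 < n then x ⟨v.1, h⟩ else decide (v.1 % 2 = n % 2)) = true} :=
      Nat.card_congr (E.subtypeEquiv hev)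
    rw [e1, Nat.card_eq_fintype_card, Fintype.card_subtype]
    rw [← count_pad n (2 ^ b) hnb]
    have e2 : (Finset.univ.filter fun v : Fin (2 ^ b) =>
        (if h : v.1 < n then x ⟨v.1, h⟩ else decide (v.1 % 2 = n % 2)) = true).map Fin.valEmbedding
        = (Finset.univ.filter fun i => x i = true).map Fin.valEmbedding ∪
          (Finset.Ico n (2 ^ b)).filter fun v => v % 2 = n % 2 := by
      ext v
      simp only [Finset.mem_map, Finset.mem_filter, Finset.mem_univ, true_and, Finset.mem_union,
        Fin.valEmbedding_apply, Finset.mem_Ico]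
      constructor
      · rintro ⟨w, hw, rfl⟩
        by_cases h : w.1 < n
        · rw [dif_pos h] at hw
          exact Or.inl ⟨⟨w.1, h⟩, hw, rfl⟩
        · rw [dif_neg h, decide_eq_true_iff] at hw
          exact Or.inr ⟨⟨by omega, w.2⟩, hw⟩
      · rintro (⟨i, hi, rfl⟩ | ⟨⟨h3, h4⟩, h5⟩)
        · refine ⟨⟨i.1, by omega⟩, ?_, rfl⟩
          rw [dif_pos (show (⟨i.1, _⟩ : Fin (2 ^ b)).1 < n from i.2)]
          exact hi
        · refine ⟨⟨v, h4⟩, ?_, rfl⟩
          rw [dif_neg (show ¬ (⟨v, h4⟩ : Fin (2 ^ b)).1 < n from by simp only; omega)]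
          simpa using h5
    rw [← Finset.card_map Fin.valEmbedding, e2, Finset.card_union_of_disjoint, Finset.card_map]
    rw [Finset.disjoint_left]
    intro v hv hv'
    obtain ⟨i, _, rfl⟩ := Finset.mem_map.1 hv
    have := (Finset.mem_Ico.1 (Finset.mem_filter.1 hv').1).1
    rw [Fin.valEmbedding_apply] at this
    omega
  rw [hcard]
  unfold Maj
  rcases Nat.lt_or_ge 1 n with h | h
  · have h1 : 1 ≤ b := Nat.clog_pos (by norm_num) h
    have h3 : 2 ^ b = 2 * 2 ^ (b - 1) := by rw [← pow_succ']; congr 1; omega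
    omega
  · have hn1 : n = 1 := by omega
    have hb0 : b = 0 := by rw [hb, hn1]; simp
    have h3 : 2 ^ b = 1 := by rw [hb0]; rfl
    rw [h3]
    omega

end H599.MJ
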